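import Pool.Agent.CBG.StmtsA

/-!
Squad CBG, row BRG: the local form of Berger's theorem.
-/

set_option autoImplicit false
set_option maxSynthPendingDepth 3

open scoped Manifold ContDiff Topology
open Set Filter MeasureTheory

namespace Pool.Agent.CBG.H53

theorem brg (hchx : ChxStmt) (hker : KerStmt) (hgrm : GrmStmt) (hsoc : SocStmt) (hinvS : InvStmt)
    (hsymS : SymStmt) : BrgStmt := by
  intro n G X hC hsym hpos hX hinv hmax
  have hsym0 : ∀ v w : Ed n, G 0 v w = G 0 w v := hsym.self_of_nhds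
  have hpos' : ∀ v : Ed n, 0 ≤ G 0 v v := by
    intro v
    by_cases h : v = 0
    · rw [h]
      simp
    · exact (hpos v h).le
  -- the basis of the plane
  obtain ⟨e₁, he₁⟩ : ∃ e : Ed n, e = X (1, 0) := ⟨_, rfl⟩
  obtain ⟨e₂, he₂⟩ : ∃ e : Ed n, e = X (0, 1) := ⟨_, rfl⟩
  have hXa : ∀ a : ℝ × ℝ, X a = a.1 • e₁ + a.2 • e₂ := by
    intro a
    have h1 : a = a.1 • ((1 : ℝ), (0 : ℝ)) + a.2 • ((0 : ℝ), (1 : ℝ)) := by
      ext <;> simp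
    conv_lhs => rw [h1]
    rw [map_add, map_smul, map_smul, he₁, he₂]
  have hli : LinearIndependent ℝ ![e₁, e₂] := by
    rw [LinearIndependent.pair_iff]
    intro s t hst
    have h1 : X (s, t) = X 0 := by
      rw [hXa, map_zero]
      exact hst
    have h2 := hX h1
    exact ⟨congrArg Prod.fst h2, congrArg Prod.snd h2⟩
  have he20 : e₂ ≠ 0 := by
    intro h
    have h1 : X (0, 1) = X 0 := by rw [← he₂, h, map_zero]
    have h2 := congrArg Prod.snd (hX h1)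
    exact one_ne_zero h2
  have hcont : ∀ u v : Ed n, ContinuousAt (fun y => G y u v) 0 := by
    intro u v
    exact (hC.continuousAt.clm_apply continuousAt_const).clm_apply continuousAt_const
  have hΔ0 : 0 < G 0 e₁ e₁ * G 0 e₂ e₂ - G 0 e₁ e₂ ^ 2 := hgrm.2.2 n (G 0) e₁ e₂ hsym0 hpos hli
  have hh0 : 0 < G 0 e₂ e₂ := hpos e₂ he20
  have hΔ : ∀ᶠ y in 𝓝 (0 : Ed n), 0 < G y e₁ e₁ * G y e₂ e₂ - G y e₁ e₂ ^ 2 := by
    have h1 : ContinuousAt (fun y => G y e₁ e₁ * G y e₂ e₂ - G y e₁ e₂ ^ 2) 0 :=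
      ((hcont e₁ e₁).mul (hcont e₂ e₂)).sub ((hcont e₁ e₂).pow 2)
    exact h1.eventually (lt_mem_nhds hΔ0)
  have hh : ∀ᶠ y in 𝓝 (0 : Ed n), 0 < G y e₂ e₂ := (hcont e₂ e₂).eventually (lt_mem_nhds hh0)
  have hFe : ∀ y : Ed n, inv11 (fun a b => G y (X a) (X b)) =
      G y e₂ e₂ / (G y e₁ e₁ * G y e₂ e₂ - G y e₁ e₂ ^ 2) := by
    intro y
    unfold inv11
    rw [he₁, he₂]
  -- the quadratic form on the plane
  have hQ : ∀ y : Ed n, (∀ v w : Ed n, G y v w = G y w v) → ∀ a b : ℝ × ℝ,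
      G y (X a) (X b) = a.1 * b.1 * G y e₁ e₁ + (a.1 * b.2 + a.2 * b.1) * G y e₁ e₂ +
        a.2 * b.2 * G y e₂ e₂ := by
    intro y hy a b
    rw [hXa, hXa]
    simp only [map_add, map_smul, add_apply, smul_apply, smul_eq_mul]
    rw [hy e₂ e₁]
    ring
  have hlow : ∀ᶠ y in 𝓝 (0 : Ed n), ∀ a : ℝ × ℝ,
      2 * a.1 - G y (X a) (X a) ≤ inv11 (fun a b => G y (X a) (X b)) := by
    filter_upwards [hΔ, hh, hsym] with y h1 h2 h3 a
    rw [hFe, le_div_iff₀ h1, hQ y h3]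
    have h4 : 0 ≤ (G y e₂ e₂ - (G y e₁ e₁ * G y e₂ e₂ - G y e₁ e₂ ^ 2) * a.1) ^ 2 +
        (G y e₁ e₁ * G y e₂ e₂ - G y e₁ e₂ ^ 2) * (G y e₁ e₂ * a.1 + G y e₂ e₂ * a.2) ^ 2 :=
      add_nonneg (sq_nonneg _) (mul_nonneg h1.le (sq_nonneg _))
    have h5 : (G y e₂ e₂ - (G y e₁ e₁ * G y e₂ e₂ - G y e₁ e₂ ^ 2) * a.1) ^ 2 +
        (G y e₁ e₁ * G y e₂ e₂ - G y e₁ e₂ ^ 2) * (G y e₁ e₂ * a.1 + G y e₂ e₂ * a.2) ^ 2 =
        G y e₂ e₂ * (G y e₂ e₂ - (2 * a.1 - (a.1 * a.1 * G y e₁ e₁ +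
          (a.1 * a.2 + a.2 * a.1) * G y e₁ e₂ + a.2 * a.2 * G y e₂ e₂)) *
            (G y e₁ e₁ * G y e₂ e₂ - G y e₁ e₂ ^ 2)) := by
      ring
    rw [h5] at h4
    have h6 := nonneg_of_mul_nonneg_right h4 h2
    linarith
  -- the point Z
  obtain ⟨ζ, hζ⟩ : ∃ ζ : ℝ × ℝ, ζ =
      (G 0 e₂ e₂ / (G 0 e₁ e₁ * G 0 e₂ e₂ - G 0 e₁ e₂ ^ 2),
        -G 0 e₁ e₂ / (G 0 e₁ e₁ * G 0 e₂ e₂ - G 0 e₁ e₂ ^ 2)) := ⟨_, rfl⟩
  have hZa : ∀ a : ℝ × ℝ, G 0 (X ζ) (X a) = a.1 := by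
    intro a
    rw [hQ 0 hsym0, hζ]
    have h1 := hΔ0.ne'
    have h2 : a.1 * ((G 0 e₁ e₁ * G 0 e₂ e₂ - G 0 e₁ e₂ ^ 2) /
        (G 0 e₁ e₁ * G 0 e₂ e₂ - G 0 e₁ e₂ ^ 2)) = a.1 := by
      rw [div_self h1, mul_one]
    refine Eq.trans ?_ h2
    ring
  have hF0 : inv11 (fun a b => G 0 (X a) (X b)) = ζ.1 := by
    rw [hFe, hζ]
  have hζ1 : 0 < ζ.1 := by
    rw [hζ]
    exact div_pos hh0 hΔ0
  have hZ0 : X ζ ≠ 0 := by
    intro h
    have h1 := hZa ζ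
    rw [h] at h1
    simp at h1
    linarith
  have htend : ∀ V : Ed n, Tendsto (fun ε : ℝ => ε • V) (𝓝 0) (𝓝 (0 : Ed n)) := by
    intro V
    have h1 : Continuous (fun ε : ℝ => ε • V) := continuous_id.smul continuous_const
    have h2 := h1.tendsto 0
    simp only [zero_smul] at h2
    exact h2
  have hS : ∀ (V : Ed n) (a : ℝ × ℝ),
      fderiv ℝ G 0 V (X ζ) (X ζ) + 2 * G 0 (X ζ) (X a) = 2 * a.1 ∧
      0 ≤ fderiv ℝ (fderiv ℝ G) 0 V V (X ζ) (X ζ) + 4 * fderiv ℝ G 0 V (X ζ) (X a) +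
        2 * G 0 (X a) (X a) := by
    intro V a
    refine hsoc n G hC hsym V (X ζ) (X a) a.1 ?_
    filter_upwards [(htend V).eventually hlow, (htend V).eventually hmax] with ε h1 h2
    have h3 := h1 (ζ + ε • a)
    rw [hF0] at h2
    rw [map_add, map_smul, Prod.fst_add, Prod.smul_fst, smul_eq_mul] at h3
    rw [hZa ζ]
    linarith
  have h1 : ∀ V : Ed n, fderiv ℝ G 0 V (X ζ) (X ζ) = 0 := by
    intro V
    have h := (hS V ζ).1
    rw [hZa] at h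
    linarith
  obtain ⟨hI1, hI2⟩ := hinvS n G X hC hinv
  obtain ⟨hs1, -, -⟩ := hsymS n G hC hsym
  -- the bilinear form
  let α : Ed n →ₗ[ℝ] Ed n →ₗ[ℝ] ℝ := LinearMap.mk₂ ℝ
    (fun V z => (fderiv ℝ G 0 V (X ζ) z - fderiv ℝ G 0 z (X ζ) V) / 2)
    (by
      intro V V' z
      simp only [map_add, add_apply]
      ring)
    (by
      intro c V z
      simp only [map_smul, smul_apply, smul_eq_mul]
      ring)
    (by
      intro V z z'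
      simp only [map_add, add_apply]
      ring)
    (by
      intro c V z
      simp only [map_smul, smul_apply, smul_eq_mul]
      ring)
  have hα : ∀ V z, α V z = (fderiv ℝ G 0 V (X ζ) z - fderiv ℝ G 0 z (X ζ) V) / 2 := fun V z => rfl
  obtain ⟨V, c, hVZ, hc⟩ := hker n (G 0) hpos X hX α (X ζ) hZ0
  have hchr : IsChr G 0 V (X ζ) (X c) := by
    intro z
    rw [hc z, hα]
    unfold chr
    rw [hI1 ζ, hs1 z V (X ζ)]
    simp
  have hDc : fderiv ℝ G 0 V (X ζ) (X c) = 2 * G 0 (X c) (X c) := by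
    rw [hc (X c), hα, hI1 c, zero_apply, zero_apply]
    ring
  have h2 := (hS V ((-2 : ℝ) • c)).2
  rw [map_smul] at h2
  simp only [map_smul, smul_apply, smul_eq_mul] at h2
  rw [hDc] at h2
  refine ⟨V, X ζ, hVZ, ?_⟩
  intro a b c' ha hb hc'
  have ea : a = X c := (hchx.2 n G 0 hpos V (X ζ)).2 a (X c) ha hchr
  have hchr0 : IsChr G 0 (X ζ) (X ζ) 0 := by
    intro z
    unfold chr
    rw [hI1 ζ, h1 z]
    simp
  have ec : c' = 0 := (hchx.2 n G 0 hpos (X ζ) (X ζ)).2 c' 0 hc' hchr0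
  rw [ea, ec]
  unfold curv
  rw [(hI2 ζ (X ζ)).1, (hI2 ζ V).2]
  have h3 := hpos' (X c)
  simp only [zero_apply, map_zero]
  linarith

end Pool.Agent.CBG.H53
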