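import Pool.Agent.CBG.StmtsB

/-!
Squad CBG, row ORT: the orthogonal complement for an inner product.
-/

set_option autoImplicit false
set_option maxSynthPendingDepth 3

open scoped Manifold ContDiff Topology
open Set Filter MeasureTheory

namespace Pool.Agent.CBG.H53

theorem ort : OrtStmt := by
  constructor
  · intro n B hsym hpos T
    let φ : Ed n →ₗ[ℝ] Module.Dual ℝ T :=
      { toFun := fun z => (B z : Ed n →ₗ[ℝ] ℝ).comp T.subtype
        map_add' := by
          intro z z'
          ext v
          simp
        map_smul' := by
          intro c z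
          ext v
          simp }
    have hφ : ∀ (z : Ed n) (v : T), φ z v = B z v := fun z v => rfl
    have hmem : ∀ z, z ∈ LinearMap.ker φ ↔ ∀ v ∈ T, B v z = 0 := by
      intro z
      rw [LinearMap.mem_ker]
      constructor
      · intro h v hv
        have h1 := LinearMap.congr_fun h (⟨v, hv⟩ : T)
        rw [hφ] at h1
        rw [hsym]
        exact h1
      · intro h
        refine LinearMap.ext fun v => ?_
        rw [hφ, hsym]
        exact h v v.2
    have hdis : Disjoint T (LinearMap.ker φ) := by
      rw [Submodule.disjoint_def]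
      intro v hv hv'
      by_contra hne
      have h1 := hpos v hne
      rw [(hmem v).1 hv' v hv] at h1
      exact lt_irrefl _ h1
    have h1 := LinearMap.finrank_range_add_finrank_ker φ
    have h2 : Module.finrank ℝ (LinearMap.range φ) ≤ Module.finrank ℝ T := by
      refine (Submodule.finrank_le _).trans ?_
      rw [Subspace.dual_finrank_eq]
    have h3 : Module.finrank ℝ (Ed n) = n := by simp
    have h4 := Submodule.finrank_add_finrank_le_of_disjoint hdis
    rw [h3] at h1 h4
    have h5 : Module.finrank ℝ T + Module.finrank ℝ (LinearMap.ker φ) = n := by omega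
    refine ⟨LinearMap.ker φ, hmem, ⟨hdis, ?_⟩, h5⟩
    rw [codisjoint_iff]
    exact Submodule.eq_top_of_disjoint T (LinearMap.ker φ) (by rw [h3]; exact h5.ge) hdis
  · intro h φ hsym hpos
    have hinj : Function.Injective h := by
      rw [← LinearMap.ker_eq_bot, LinearMap.ker_eq_bot']
      intro a ha
      by_contra hne
      have h1 := hpos a hne
      rw [ha] at h1
      simp at h1
    have hfr : Module.finrank ℝ (ℝ × ℝ) = Module.finrank ℝ ((ℝ × ℝ) →ₗ[ℝ] ℝ) :=
      (Subspace.dual_finrank_eq (K := ℝ) (V := ℝ × ℝ)).symm
    have hsurj := (LinearMap.injective_iff_surjective_of_finrank_eq_finrank hfr).1 hinj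
    obtain ⟨c, hc⟩ := hsurj φ
    refine ⟨c, fun b => ?_⟩
    rw [hsym, hc]

end Pool.Agent.CBG.H53
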