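import Pool.Agent.CBG.StmtsB

/-!
Squad CBG, row SKW: a skew form on a space of odd dimension has a kernel.
-/

set_option autoImplicit false
set_option maxSynthPendingDepth 3

open scoped Manifold ContDiff Topology
open Set Filter MeasureTheory

namespace Pool.Agent.CBG.H53

theorem skw : SkwStmt := by
  intro n H hodd Ω hΩ
  let b := Module.finBasis ℝ H
  let A : Matrix (Fin (Module.finrank ℝ H)) (Fin (Module.finrank ℝ H)) ℝ :=
    fun i j => Ω (b i : Ed n) (b j : Ed n)
  have hA : A.transpose = -A := by
    ext i j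
    rw [Matrix.transpose_apply, Matrix.neg_apply]
    exact hΩ _ _
  have hdet : A.det = 0 := by
    have h1 : A.det = (-A).det := by
      rw [← hA, Matrix.det_transpose]
    rw [Matrix.det_neg, Fintype.card_fin, hodd.neg_one_pow] at h1
    linarith
  obtain ⟨v, hv0, hv⟩ := Matrix.exists_vecMul_eq_zero_iff.2 hdet
  obtain ⟨z, hz⟩ : ∃ z : H, z = ∑ i, v i • b i := ⟨_, rfl⟩
  refine ⟨z, z.2, ?_, ?_⟩
  · intro h
    refine hv0 ?_
    have h1 : ∑ i, v i • b i = 0 := by
      rw [← hz]
      exact Subtype.ext h
    have h2 := Fintype.linearIndependent_iff.1 b.linearIndependent v h1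
    exact funext h2
  · have h1 : (Ω (z : Ed n)).comp H.subtype = 0 := by
      refine b.ext fun j => ?_
      rw [LinearMap.comp_apply, LinearMap.zero_apply, Submodule.subtype_apply, hz]
      have h2 := congrFun hv j
      rw [Submodule.coe_sum, map_sum, LinearMap.sum_apply]
      have h3 : (Matrix.vecMul v A) j = ∑ i, v i * A i j := rfl
      rw [h3, Pi.zero_apply] at h2
      rw [← h2]
      refine Finset.sum_congr rfl fun i _ => ?_
      rw [Submodule.coe_smul, map_smul, LinearMap.smul_apply, smul_eq_mul]
    intro z' hz'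
    have h2 := LinearMap.congr_fun h1 ⟨z', hz'⟩
    exact h2

end Pool.Agent.CBG.H53
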